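import Pool.Agent.S04971
import Pool.Agent.Helper26.BK.EnergyCap2

/-!
# MP_6dace2_an, Q1: capacity asymptotics of condensers with shrinking non-connected plates

The definitions below are those of the problem file: the condenser capacity is an infimum over
functions that are continuous on the Riemann sphere `OnePoint ℂ`, locally Lipschitz on the plane
and equal to `δ k` on a neighbourhood of the plate `E k`; the logarithmic capacity is the one
defined by logarithmic energies of probability measures.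
-/

set_option autoImplicit false
open Filter Topology Asymptotics MeasureTheory
open scoped ENNReal Real

namespace Pool.Agent.Results.MP_6dace2_an.CondenserExpansion

variable {n : ℕ}

/-- The competitors for the condenser with plates `E k` and potentials `δ k`: real functions `v`
on the Riemann sphere that are continuous on the sphere, locally Lipschitz on the plane, and equal
to `δ k` on a neighbourhood of `E k`, for each `k`. -/
structure Competitor (E : Fin n → Set ℂ) (δ : Fin n → ℝ) (v : OnePoint ℂ → ℝ) : Prop where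
  continuous_sphere : Continuous v
  locallyLipschitz_plane : LocallyLipschitz fun z : ℂ => v z
  eq_near_plate : ∀ k, ∃ U : Set ℂ, IsOpen U ∧ E k ⊆ U ∧ ∀ z ∈ U, v (z : OnePoint ℂ) = δ k

/-- The Dirichlet integral `∬ |∇v|² dx dy`, with `|∇v|² = (∂v/∂x)² + (∂v/∂y)²` (a locally
Lipschitz function is differentiable almost everywhere). -/
noncomputable def dirichletIntegral (v : ℂ → ℝ) : ℝ≥0∞ :=
  ∫⁻ z : ℂ, ENNReal.ofReal ((fderiv ℝ v z 1) ^ 2 + (fderiv ℝ v z Complex.I) ^ 2)

/-- The capacity of the condenser with plates `E k` and potentials `δ k`. -/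
noncomputable def condenserCap (E : Fin n → Set ℂ) (δ : Fin n → ℝ) : ℝ≥0∞ :=
  ⨅ (v : OnePoint ℂ → ℝ) (_ : Competitor E δ v), dirichletIntegral fun z : ℂ => v z

/-- The logarithmic capacity of `E`: the supremum of `exp (∬ log |x - y| dm(x) dm(y))` over the
Borel probability measures `m` on `E` of finite logarithmic energy, and `0` if there is none.
(A measure with a point mass has infinite energy.) -/
noncomputable def logCap (E : Set ℂ) : ℝ :=
  sSup {c : ℝ | ∃ m : Measure E, IsProbabilityMeasure m ∧ (∀ x, m {x} = 0) ∧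
    Integrable (fun p : E × E => Real.log ‖(p.1 : ℂ) - (p.2 : ℂ)‖) (m.prod m) ∧
    c = Real.exp (∫ p : E × E, Real.log ‖(p.1 : ℂ) - (p.2 : ℂ)‖ ∂(m.prod m))}

/-- `W = ∑ 1 / ν k`. -/
noncomputable def weightSum (ν : Fin n → ℝ) : ℝ := ∑ k, (ν k)⁻¹

/-- The weighted mean of the potentials. -/
noncomputable def meanPotential (δ ν : Fin n → ℝ) : ℝ := (weightSum ν)⁻¹ * ∑ k, δ k * (ν k)⁻¹

/-- `ε k = δ k - δ`. -/
noncomputable def eps (δ ν : Fin n → ℝ) (k : Fin n) : ℝ := δ k - meanPotential δ ν

/-- The coefficient `A`. -/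
noncomputable def coeffA (δ ν : Fin n → ℝ) : ℝ := 2 * π * ∑ k, eps δ ν k ^ 2 * (ν k)⁻¹

/-- The coefficient `R`. -/
noncomputable def coeffR (z : Fin n → ℂ) (δ μ ν : Fin n → ℝ) : ℝ :=
  2 * π * (∑ k, eps δ ν k ^ 2 * ((ν k) ^ 2)⁻¹ * Real.log (μ k)
    + ∑ k, ∑ l with l ≠ k, eps δ ν k * eps δ ν l * (ν k * ν l)⁻¹ * Real.log ‖z k - z l‖)

/-- `t = 1 / log r`. -/
noncomputable def tt (r : ℝ) : ℝ := 1 / Real.log r

open Pool.Agent.Helper26

/-- `|∇v|²` is the square of the operator norm of the derivative. -/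
theorem norm_sq_eq (f : ℂ →L[ℝ] ℝ) : ‖f‖ ^ 2 = (f 1) ^ 2 + (f Complex.I) ^ 2 := by
  set S : ℝ := (f 1) ^ 2 + (f Complex.I) ^ 2 with hS
  have hS0 : 0 ≤ S := by positivity
  have happ : ∀ w : ℂ, f w = w.re * f 1 + w.im * f Complex.I := by
    intro w
    have h1 : w = w.re • (1 : ℂ) + w.im • Complex.I := by
      apply Complex.ext <;> simp
    conv_lhs => rw [h1]
    rw [map_add, map_smul, map_smul, smul_eq_mul, smul_eq_mul]
  have h1 : ‖f‖ ≤ √S := by
    apply ContinuousLinearMap.opNorm_le_bound _ (Real.sqrt_nonneg _)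
    intro w
    rw [happ w, Real.norm_eq_abs, Complex.norm_eq_sqrt_sq_add_sq, ← Real.sqrt_mul hS0]
    apply Real.abs_le_sqrt
    nlinarith [sq_nonneg (w.re * f Complex.I - w.im * f 1)]
  have h2 : S ≤ ‖f‖ ^ 2 := by
    have h3 := f.le_opNorm (⟨f 1, f Complex.I⟩ : ℂ)
    rw [happ, Real.norm_eq_abs, Complex.norm_eq_sqrt_sq_add_sq] at h3
    simp only at h3
    have h4 : (f 1) * f 1 + f Complex.I * f Complex.I = S := by
      rw [hS]
      ring
    rw [h4, abs_of_nonneg hS0, ← hS] at h3
    rcases hS0.eq_or_lt with h0 | h0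
    · rw [← h0]
      positivity
    · have h5 : 0 < √S := Real.sqrt_pos.mpr h0
      have h6 : √S * √S = S := Real.mul_self_sqrt hS0
      have h7 : √S ≤ ‖f‖ := by
        apply le_of_mul_le_mul_right _ h5
        rw [h6]
        exact h3
      calc S = √S ^ 2 := (Real.sq_sqrt hS0).symm
        _ ≤ ‖f‖ ^ 2 := by gcongr
  apply le_antisymm _ h2
  calc ‖f‖ ^ 2 ≤ √S ^ 2 := by gcongr
    _ = S := Real.sq_sqrt hS0

theorem dirichletIntegral_eq (v : ℂ → ℝ) : dirichletIntegral v = Dir v := by
  unfold dirichletIntegral Dir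
  apply lintegral_congr
  intro z
  rw [← norm_sq_eq, ← enorm_eq_nnnorm, ← ofReal_norm, ← ENNReal.ofReal_pow (norm_nonneg _)]

theorem cap_le (E : Fin n → Set ℂ) (δ : Fin n → ℝ) : CapC E δ ≤ condenserCap E δ := by
  unfold condenserCap
  apply le_iInf
  intro v
  apply le_iInf
  intro hv
  rw [dirichletIntegral_eq]
  unfold CapC
  refine iInf₂_le (fun z : ℂ => v z) ⟨hv.locallyLipschitz_plane, ?_, ?_⟩
  · refine ⟨v OnePoint.infty, ?_⟩
    have h1 := (OnePoint.continuous_iff v).mp hv.continuous_sphere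
    have h2 := h1.1
    rw [coclosedCompact_eq_cocompact] at h2
    exact h2
  · intro k x hx
    obtain ⟨U, _, hEU, hU⟩ := hv.eq_near_plate k
    exact hU x (hEU hx)

theorem le_cap (E : Fin n → Set ℂ) (δ : Fin n → ℝ) : condenserCap E δ ≤ CapC E δ := by
  obtain ⟨g, hg0, hg⟩ := exists_gap δ
  have hlim : Tendsto (fun t : ℝ => ENNReal.ofReal ((g / (g - 2 * t)) ^ 2)) (𝓝[>] 0) (𝓝 1) := by
    have h1 : ContinuousAt (fun t : ℝ => (g / (g - 2 * t)) ^ 2) 0 := by
      apply ContinuousAt.pow
      apply ContinuousAt.div continuousAt_const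
      · fun_prop
      · simp [hg0.ne']
    have h2 : Tendsto (fun t : ℝ => (g / (g - 2 * t)) ^ 2) (𝓝[>] 0) (𝓝 1) := by
      have h3 := h1.tendsto.mono_left (nhdsWithin_le_nhds (s := Set.Ioi (0:ℝ)))
      simpa [hg0.ne'] using h3
    have h4 := ENNReal.tendsto_ofReal h2
    rwa [ENNReal.ofReal_one] at h4
  unfold CapC
  apply le_iInf
  intro u
  apply le_iInf
  intro hu
  obtain ⟨hul, ⟨c, hc⟩, huE⟩ := hu
  have key : ∀ t : ℝ, 0 < t → 2 * t < g →
      condenserCap E δ ≤ ENNReal.ofReal ((g / (g - 2 * t)) ^ 2) * Dir u := by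
    intro t ht htg
    obtain ⟨ψ, hψ, hflat⟩ := exists_flatten δ hg ht.le htg
    set v : OnePoint ℂ → ℝ := fun p =>
      OnePoint.elim p (ψ c) (fun z : ℂ => ψ (u z)) with hv
    have hcoe : (fun z : ℂ => v z) = ψ ∘ u := rfl
    have hvadm : Competitor E δ v := by
      refine ⟨?_, ?_, ?_⟩
      · rw [OnePoint.continuous_iff]
        constructor
        · rw [coclosedCompact_eq_cocompact]
          exact (hψ.continuous.tendsto c).comp hc
        · rw [hcoe]
          exact hψ.continuous.comp hul.continuous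
      · rw [hcoe]
        exact hψ.locallyLipschitz.comp hul
      · intro k
        refine ⟨{z | |u z - δ k| < t}, ?_, ?_, ?_⟩
        · exact isOpen_lt ((hul.continuous.sub continuous_const).abs) continuous_const
        · intro x hx
          change |u x - δ k| < t
          rw [huE k x hx, sub_self, abs_zero]
          exact ht
        · intro x hx
          exact hflat k (u x) (le_of_lt hx)
    have h1 : condenserCap E δ ≤ dirichletIntegral (fun z : ℂ => v z) := iInf₂_le v hvadm
    rw [dirichletIntegral_eq, hcoe] at h1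
    refine h1.trans ((dir_comp_le hψ hul).trans ?_)
    have h2 : 0 ≤ g / (g - 2 * t) := div_nonneg hg0.le (by linarith)
    rw [ENNReal.ofReal_pow h2]
    rfl
  rcases eq_or_ne (Dir u) ⊤ with htop | htop
  · rw [htop]
    exact le_top
  · have h5 : Tendsto (fun t : ℝ => ENNReal.ofReal ((g / (g - 2 * t)) ^ 2) * Dir u) (𝓝[>] 0)
        (𝓝 (1 * Dir u)) := ENNReal.Tendsto.mul_const hlim (Or.inr htop)
    rw [one_mul] at h5
    apply ge_of_tendsto h5
    have h6 : ∀ᶠ t : ℝ in 𝓝[>] 0, 2 * t < g := by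
      have h7 : Tendsto (fun t : ℝ => 2 * t) (𝓝[>] 0) (𝓝 0) := by
        have h8 : Continuous (fun t : ℝ => 2 * t) := by fun_prop
        have h9 := (h8.tendsto 0).mono_left (nhdsWithin_le_nhds (s := Set.Ioi (0:ℝ)))
        simpa using h9
      exact h7.eventually (gt_mem_nhds hg0)
    filter_upwards [h6, self_mem_nhdsWithin] with t ht1 ht2
    exact key t ht2 ht1

theorem cap_eq (E : Fin n → Set ℂ) (δ : Fin n → ℝ) : condenserCap E δ = CapC E δ :=
  le_antisymm (le_cap E δ) (cap_le E δ)

/-- **Q1.** Let `z k` be distinct points, `δ k` potentials that are not all equal,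
`μ k, ν k > 0`, and let the plates `E k r`, `r > 0`, be closed sets with
`sup {|w - z k| : w ∈ E k r} → 0` and `cap (E k r) = μ k r^(ν k) (1 + o(1))` as `r → 0⁺`.
Then the capacity of the condenser is finite for all small `r > 0` and equals
`- A t + R t² + o(t²)`, `t = 1 / log r`, as `r → 0⁺`. -/
theorem result (z : Fin n → ℂ) (δ μ ν : Fin n → ℝ) (E : Fin n → ℝ → Set ℂ)
    (hz : Function.Injective z) (hδ : ¬ ∀ k l, δ k = δ l)
    (hμ : ∀ k, 0 < μ k) (hν : ∀ k, 0 < ν k)
    (hclosed : ∀ k, ∀ r > 0, IsClosed (E k r))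
    (hshrink : ∀ k, Tendsto (fun r : ℝ => ⨆ w ∈ E k r, edist w (z k)) (𝓝[>] 0) (𝓝 0))
    (hcap : ∀ k, (fun r : ℝ => logCap (E k r)) ~[𝓝[>] 0] fun r : ℝ => μ k * r ^ ν k) :
    (∀ᶠ r in 𝓝[>] (0 : ℝ), condenserCap (fun k => E k r) δ < ⊤) ∧
    (fun r : ℝ => (condenserCap (fun k => E k r) δ).toReal
        - (-coeffA δ ν * tt r + coeffR z δ μ ν * tt r ^ 2)) =o[𝓝[>] 0] fun r : ℝ => tt r ^ 2 := by
  classical
  -- the plates, with the values for `r ≤ 0` replaced by the empty set
  set E' : Fin n → ℝ → Set ℂ := fun k r => if 0 < r then E k r else ∅ with hE'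
  have hEE : ∀ r : ℝ, 0 < r → ∀ k, E' k r = E k r := by
    intro r hr k
    simp only [hE', if_pos hr]
  have hcl' : ∀ k r, IsClosed (E' k r) := by
    intro k r
    by_cases hr : 0 < r
    · rw [hEE r hr]
      exact hclosed k r hr
    · simp only [hE', if_neg hr]
      exact isClosed_empty
  have hball : ∀ k, ∀ ε > 0, ∀ᶠ r in 𝓝[>] (0:ℝ), E k r ⊆ Metric.ball (z k) ε := by
    intro k ε hε
    have h1 : ∀ᶠ r in 𝓝[>] (0:ℝ), ⨆ w ∈ E k r, edist w (z k) < ENNReal.ofReal ε :=
      (hshrink k).eventually (gt_mem_nhds (ENNReal.ofReal_pos.mpr hε))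
    filter_upwards [h1] with r hr
    intro w hw
    have h2 : edist w (z k) < ENNReal.ofReal ε :=
      (le_iSup₂ (f := fun w (_ : w ∈ E k r) => edist w (z k)) w hw).trans_lt hr
    rw [edist_dist, ENNReal.ofReal_lt_ofReal_iff hε] at h2
    exact h2
  have hball' : ∀ k, ∀ ε > 0, ∀ᶠ r in 𝓝[>] (0:ℝ), E' k r ⊆ Metric.ball (z k) ε := by
    intro k ε hε
    filter_upwards [hball k ε hε, self_mem_nhdsWithin] with r hr hr0
    rw [hEE r hr0]
    exact hr
  have hcap' : ∀ k, Tendsto (fun r : ℝ => tcap (E' k r) / (μ k * r ^ ν k)) (𝓝[>] 0) (𝓝 1) := by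
    intro k
    have h0 : ∀ᶠ r : ℝ in 𝓝[>] 0, μ k * r ^ ν k ≠ 0 := by
      filter_upwards [self_mem_nhdsWithin] with r hr
      exact (mul_pos (hμ k) (Real.rpow_pos_of_pos hr _)).ne'
    have h1 := (isEquivalent_iff_tendsto_one h0).mp (hcap k)
    refine h1.congr' ?_
    filter_upwards [hball k 1 one_pos, self_mem_nhdsWithin] with r hr hr0
    have hcomp : IsCompact (E k r) :=
      (Metric.isBounded_ball.subset hr).isCompact_closure.of_isClosed_subset
        (hclosed k r hr0) subset_closure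
    have h2 : logCap (E k r) = tcap (E k r) := BK.logCap_eq_tcap hcomp
    rw [Pi.div_apply, hEE r hr0, h2]
  have hnc : ∃ k l, δ k ≠ δ l := by
    by_contra hcon
    push Not at hcon
    exact hδ hcon
  -- the mean and the second coefficient in the form of the frozen statement
  have hmean : meanPotential δ ν = (∑ k, δ k / ν k) / (∑ k, 1 / ν k) := by
    unfold meanPotential weightSum
    simp only [div_eq_mul_inv, one_mul]
    ring
  have hR : coeffR z δ μ ν = 2 * π * (∑ k, (δ k - meanPotential δ ν) ^ 2 / (ν k) ^ 2 *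
      Real.log (μ k) + ∑ k, ∑ l ∈ Finset.univ.erase k,
        (δ k - meanPotential δ ν) * (δ l - meanPotential δ ν) / (ν k * ν l) *
          Real.log ‖z k - z l‖) := by
    unfold coeffR eps
    have h1 : ∀ k : Fin n, (Finset.univ.filter fun l => l ≠ k) = Finset.univ.erase k := by
      intro k
      ext l
      simp
    simp only [h1, div_eq_mul_inv]
  have hmain := Pool.Agent.S04971.result n z δ μ ν E' (meanPotential δ ν) (coeffR z δ μ ν)
    hz hnc hμ hν hcl' hball' hcap' hmean hR
  have hyp : Hyp z δ μ ν E' (meanPotential δ ν) := ⟨hz, hnc, hμ, hν, hcl', hball', hcap', hmean⟩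
  constructor
  · filter_upwards [hyp.upper one_pos, self_mem_nhdsWithin] with r hr hr0
    rw [cap_eq]
    have h1 : (fun k => E k r) = fun k => E' k r := by
      funext k
      rw [hEE r hr0]
    rw [h1]
    exact hr.trans_lt ENNReal.ofReal_lt_top
  · have hrhs : (fun r : ℝ => (1 / Real.log r) ^ 2) = fun r : ℝ => tt r ^ 2 := rfl
    rw [hrhs] at hmain
    refine hmain.congr' ?_ EventuallyEq.rfl
    filter_upwards [self_mem_nhdsWithin] with r hr0
    have h1 : (fun k => E k r) = fun k => E' k r := by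
      funext k
      rw [hEE r hr0]
    have h2 : (⨅ (u : ℂ → ℝ) (_ : LocallyLipschitz u ∧
        (∃ c : ℝ, Tendsto u (cocompact ℂ) (𝓝 c)) ∧ ∀ k, ∀ x ∈ E' k r, u x = δ k),
            ∫⁻ x, (‖fderiv ℝ u x‖₊ : ENNReal) ^ 2) = condenserCap (fun k => E k r) δ := by
      rw [cap_eq, h1]
      rfl
    rw [h2]
    have h3 : -(2 * π) * ∑ k, (δ k - meanPotential δ ν) ^ 2 / (ν k * Real.log r) =
        -coeffA δ ν * tt r := by
      unfold coeffA eps tt
      rw [neg_mul, neg_mul, mul_assoc (2 * π), Finset.sum_mul]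
      congr 2
      apply Finset.sum_congr rfl
      intro k _
      rw [div_eq_mul_inv, mul_inv]
      ring
    rw [h3]
    rfl

end Pool.Agent.Results.MP_6dace2_an.CondenserExpansion
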